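import Mathlib

/-!
# Finite continuous-time Markov chains from a typical start
-/

namespace Q296.Typ

open Finset

variable {S : Type} [Fintype S] [DecidableEq S]

/-- `Q` is the generator of an irreducible continuous-time Markov chain on `S`. -/
structure IsIrreducibleGenerator (Q : Matrix S S ℝ) : Prop where
  offDiag : ∀ x y, x ≠ y → 0 ≤ Q x y
  row_sum : ∀ x, ∑ y, Q x y = 0
  irreducible : ∀ x y, Relation.ReflTransGen (fun a b => 0 < Q a b) x y

/-- `π` is a stationary distribution of the chain with generator `Q`. -/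
structure IsStationary (Q : Matrix S S ℝ) (π : S → ℝ) : Prop where
  nonneg : ∀ x, 0 ≤ π x
  sum_one : ∑ x, π x = 1
  stationary : ∀ y, ∑ x, π x * Q x y = 0

/-- `P_x(X_t = y)`, the entry `(x, y)` of the matrix `exp (t Q)`. -/
noncomputable def law (Q : Matrix S S ℝ) (t : ℝ) (x y : S) : ℝ := NormedSpace.exp (t • Q) x y

/-- The total variation distance `‖P_x(X_t ∈ ·) - π‖`. -/
noncomputable def dist (Q : Matrix S S ℝ) (π : S → ℝ) (x : S) (t : ℝ) : ℝ :=
  (1 / 2 : ℝ) * ∑ y, |law Q t x y - π y|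

/-- `τ_x = inf {t ≥ 0 : ‖P_x(X_t ∈ ·) - π‖ ≤ 1/4}`. -/
noncomputable def tau (Q : Matrix S S ℝ) (π : S → ℝ) (x : S) : ℝ :=
  sInf {t : ℝ | 0 ≤ t ∧ dist Q π x t ≤ 1 / 4}

open Classical in
/-- The `π`-probability of the set of states with the property `A`. -/
noncomputable def prob (π : S → ℝ) (A : S → Prop) : ℝ := ∑ x, if A x then π x else 0

/-- `m` is a median of `τ_x` when `x` is drawn from `π`. -/
def IsMedian (Q : Matrix S S ℝ) (π : S → ℝ) (m : ℝ) : Prop :=
  1 / 2 ≤ prob π (fun x => tau Q π x ≤ m) ∧ 1 / 2 ≤ prob π (fun x => m ≤ tau Q π x)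

/-- The spectral gap of `Q`: the smallest real part of a nonzero (complex) eigenvalue of `-Q`. -/
noncomputable def gap (Q : Matrix S S ℝ) : ℝ :=
  sInf (Complex.re '' (spectrum ℂ ((-Q).map (algebraMap ℝ ℂ)) \ {0}))

/-- The relaxation time `τ₂ = 1/λ`. -/
noncomputable def tauTwo (Q : Matrix S S ℝ) : ℝ := 1 / gap Q

end Q296.Typ
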