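import Pool.Agent.Q296.Typ.Defs
import Pool.Agent.Results.MP_ec2323_pr.TypicalProfile

/-!
# No cutoff from a typical start under the relaxation-time condition
-/

namespace Q296.Typ

open Finset Filter Topology Matrix
open Pool.Agent

variable {S : Type} [Fintype S] [DecidableEq S]

lemma mem_spectrum_iff {R : Type*} [Field R] (A : Matrix S S R) (z : R) :
    z ∈ spectrum R A ↔ (algebraMap R (Matrix S S R) z - A).det = 0 := by
  rw [spectrum.mem_iff, Matrix.isUnit_iff_isUnit_det, isUnit_iff_ne_zero, not_not]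

/-- for a symmetric real matrix the complex spectrum is the image of the real one -/
lemma spectrum_map {A : Matrix S S ℝ} (hA : A.IsSymm) :
    spectrum ℂ (A.map (algebraMap ℝ ℂ)) = (algebraMap ℝ ℂ) '' spectrum ℝ A := by
  have hreal : ∀ r : ℝ, algebraMap ℝ ℂ r ∈ spectrum ℂ (A.map (algebraMap ℝ ℂ)) ↔
      r ∈ spectrum ℝ A := by
    intro r
    rw [mem_spectrum_iff, mem_spectrum_iff]
    have h1 : algebraMap ℂ (Matrix S S ℂ) (algebraMap ℝ ℂ r) - A.map (algebraMap ℝ ℂ) =
        (algebraMap ℝ (Matrix S S ℝ) r - A).map (algebraMap ℝ ℂ) := by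
      ext i j
      simp only [Matrix.sub_apply, Matrix.map_apply, Matrix.algebraMap_matrix_apply]
      split_ifs <;> simp
    rw [h1]
    have h2 : ((algebraMap ℝ (Matrix S S ℝ) r - A).map (algebraMap ℝ ℂ)).det =
        algebraMap ℝ ℂ (algebraMap ℝ (Matrix S S ℝ) r - A).det := by
      rw [RingHom.map_det]; rfl
    rw [h2]
    simp
  have hH : (A.map (algebraMap ℝ ℂ)).IsHermitian := by
    ext i j
    simp only [conjTranspose_apply, Matrix.map_apply]
    have : A j i = A i j := by
      have := congrFun (congrFun hA i) j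
      simpa [Matrix.transpose_apply] using this
    rw [this]
    simp
  ext z
  constructor
  · intro hz
    have h3 := hz
    rw [hH.spectrum_eq_image_range] at h3
    obtain ⟨r, _, hr⟩ := h3
    refine ⟨r, ?_, hr⟩
    rw [← hreal]
    have : (algebraMap ℝ ℂ) r = z := hr
    rwa [this]
  · rintro ⟨r, hr, rfl⟩
    exact (hreal r).2 hr

lemma gap_eq {Q : Matrix S S ℝ} (hQ : Q.IsSymm) : gap Q = sInf (spectrum ℝ (-Q) \ {0}) := by
  unfold gap
  have hn : (-Q).IsSymm := by
    have : (-Q)ᵀ = -Q := by rw [Matrix.transpose_neg, hQ]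
    exact this
  rw [spectrum_map hn]
  congr 1
  ext r
  constructor
  · rintro ⟨z, ⟨⟨s, hs, rfl⟩, hz⟩, rfl⟩
    have h1 : (Complex.re ((algebraMap ℝ ℂ) s)) = s := Complex.ofReal_re s
    rw [h1]
    refine ⟨hs, ?_⟩
    intro h
    apply hz
    rw [Set.mem_singleton_iff] at h ⊢
    rw [h]; simp
  · rintro ⟨hr, hr0⟩
    refine ⟨(algebraMap ℝ ℂ) r, ⟨⟨r, hr, rfl⟩, ?_⟩, Complex.ofReal_re r⟩
    intro h
    apply hr0
    rw [Set.mem_singleton_iff] at h ⊢
    exact Complex.ofReal_eq_zero.1 h

theorem main :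
    ∃ (S : ℕ → Type) (_ : ∀ n, Fintype (S n)) (_ : ∀ n, DecidableEq (S n))
      (Q : ∀ n, Matrix (S n) (S n) ℝ) (π : ∀ n, S n → ℝ) (τ : ℕ → ℝ),
      (∀ n, IsIrreducibleGenerator (Q n)) ∧ (∀ n, IsStationary (Q n) (π n)) ∧
      (∀ n m, IsMedian (Q n) (π n) m ↔ m = τ n) ∧
      (∀ n, 0 < tauTwo (Q n)) ∧
      Tendsto (fun n => τ n / tauTwo (Q n)) atTop atTop ∧
      ∀ ε : ℝ, 0 < ε → ε ≤ 1 / 8 →
        (∀ᶠ n in atTop, prob (π n) (fun x => 1 - ε < dist (Q n) (π n) x ((1 - ε) * τ n)) = 0) ∧
        (∀ᶠ n in atTop, prob (π n) (fun x => dist (Q n) (π n) x ((1 + ε) * τ n) < ε) = 0) := by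
  obtain ⟨N, hNZ, G, hdec, τ, hN, hconn, hinv, hmed, hτ, htrel, hprod, hprof, hf1, hf2, hnc⟩ :=
    Results.MP_ec2323_pr.TypicalProfile.result
  -- the graphs are regular
  have hdeg : ∀ n, ∀ x : ZMod (N n), (G n).degree x = (G n).degree 0 := by
    intro n x
    rw [← SimpleGraph.card_neighborFinset_eq_degree, ← SimpleGraph.card_neighborFinset_eq_degree]
    refine Finset.card_bij (fun y _ => y - x) ?_ ?_ ?_
    · intro y hy
      rw [SimpleGraph.mem_neighborFinset] at hy ⊢
      have := hinv n 0 (y - x) x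
      rw [zero_add, sub_add_cancel] at this
      exact this.1 hy
    · intro y _ y' _ h
      exact sub_left_injective h
    · intro y hy
      refine ⟨y + x, ?_, by simp⟩
      rw [SimpleGraph.mem_neighborFinset] at hy ⊢
      have := hinv n 0 y x
      rw [zero_add] at this
      exact this.2 hy
  have hsymm : ∀ n, (Results.MP_ec2323_pr.TypicalProfile.gen (G n)).IsSymm := by
    intro n
    ext x y
    rw [Matrix.transpose_apply]
    unfold Results.MP_ec2323_pr.TypicalProfile.gen
    rw [hdeg n x, hdeg n y]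
    have h1 : (G n).Adj y x ↔ (G n).Adj x y := (G n).adj_comm y x
    have h2 : (y = x) ↔ (x = y) := eq_comm
    simp only [h1, h2]
  -- degrees are positive
  have hpos : ∀ n x, 0 < (G n).degree x → (0 : ℝ) < ((G n).degree x : ℝ) :=
    fun n x h => by exact_mod_cast h
  have hstat0 : ∀ n, 0 < (G n).degree 0 := by
    intro n
    by_contra hcon
    have h0 : (G n).degree 0 = 0 := by omega
    have h1 : ∀ x, Results.MP_ec2323_pr.TypicalProfile.stat (G n) x = 0 := by
      intro x
      unfold Results.MP_ec2323_pr.TypicalProfile.stat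
      rw [hdeg n x, h0]
      simp
    have h2 := ((hmed n (τ n)).2 rfl).1
    unfold Results.MP_ec2323_pr.TypicalProfile.prob at h2
    simp only [h1, ite_self, Finset.sum_const_zero] at h2
    norm_num at h2
  have hdpos : ∀ n x, (0 : ℝ) < ((G n).degree x : ℝ) := by
    intro n x
    rw [hdeg n x]
    exact_mod_cast hstat0 n
  have hrow : ∀ n x, ∑ y, Results.MP_ec2323_pr.TypicalProfile.gen (G n) x y = 0 := by
    intro n x
    unfold Results.MP_ec2323_pr.TypicalProfile.gen
    rw [Finset.sum_sub_distrib, Finset.sum_ite_eq univ x, if_pos (mem_univ _),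
      ← Finset.sum_filter, sum_const, nsmul_eq_mul]
    have h3 : (univ.filter fun y => (G n).Adj x y).card = (G n).degree x := by
      rw [← SimpleGraph.card_neighborFinset_eq_degree]
      congr 1
      ext y
      simp
    rw [h3]
    have := (hdpos n x).ne'
    field_simp
    norm_num
  have hadj : ∀ n (x y : ZMod (N n)), (G n).Adj x y →
      0 < Results.MP_ec2323_pr.TypicalProfile.gen (G n) x y := by
    intro n x y h
    unfold Results.MP_ec2323_pr.TypicalProfile.gen
    rw [if_pos h, if_neg h.ne, sub_zero]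
    have := hdpos n x
    positivity
  have hE : ∀ n, (0 : ℝ) < 2 * ((G n).edgeFinset.card : ℝ) ∧
      ∑ x, ((G n).degree x : ℝ) = 2 * ((G n).edgeFinset.card : ℝ) := by
    intro n
    have h1 := (G n).sum_degrees_eq_twice_card_edges
    have h2 : ∑ x, ((G n).degree x : ℝ) = 2 * ((G n).edgeFinset.card : ℝ) := by exact_mod_cast h1
    refine ⟨?_, h2⟩
    rw [← h2]
    exact Finset.sum_pos (fun x _ => hdpos n x) ⟨0, mem_univ _⟩
  have htwo : ∀ n, tauTwo (Results.MP_ec2323_pr.TypicalProfile.gen (G n)) =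
      Results.MP_ec2323_pr.TypicalProfile.trel (G n) := by
    intro n
    unfold tauTwo Results.MP_ec2323_pr.TypicalProfile.trel
    rw [gap_eq (hsymm n)]
  refine ⟨fun n => ZMod (N n), fun n => inferInstance, fun n => inferInstance,
    fun n => Results.MP_ec2323_pr.TypicalProfile.gen (G n),
    fun n => Results.MP_ec2323_pr.TypicalProfile.stat (G n), τ, ?_, ?_, hmed, ?_, ?_, ?_⟩
  · intro n
    refine ⟨?_, hrow n, ?_⟩
    · intro x y hxy
      by_cases h : (G n).Adj x y
      · exact (hadj n x y h).le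
      · have : Results.MP_ec2323_pr.TypicalProfile.gen (G n) x y = 0 := by
          unfold Results.MP_ec2323_pr.TypicalProfile.gen
          rw [if_neg h, if_neg hxy, sub_zero]
        exact this.ge
    · intro x y
      have h1 := (hconn n).preconnected x y
      rw [SimpleGraph.reachable_iff_reflTransGen] at h1
      exact Relation.ReflTransGen.mono (fun a b hab => hadj n a b hab) _ _ h1
  · intro n
    refine ⟨?_, ?_, ?_⟩
    · intro x
      unfold Results.MP_ec2323_pr.TypicalProfile.stat
      exact div_nonneg (hdpos n x).le (hE n).1.le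
    · unfold Results.MP_ec2323_pr.TypicalProfile.stat
      rw [← Finset.sum_div, (hE n).2]
      exact div_self (hE n).1.ne'
    · intro y
      have h1 : ∀ x, Results.MP_ec2323_pr.TypicalProfile.stat (G n) x *
          Results.MP_ec2323_pr.TypicalProfile.gen (G n) x y =
          ((G n).degree 0 : ℝ) / (2 * ((G n).edgeFinset.card : ℝ)) *
            Results.MP_ec2323_pr.TypicalProfile.gen (G n) y x := by
        intro x
        have h2 := congrFun (congrFun (hsymm n) x) y
        rw [Matrix.transpose_apply] at h2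
        rw [h2]
        unfold Results.MP_ec2323_pr.TypicalProfile.stat
        rw [hdeg n x]
      simp only [h1]
      rw [← Finset.mul_sum, hrow n y, mul_zero]
  · intro n
    rw [htwo n]
    exact (htrel n).1
  · simp only [htwo]
    exact hprod
  · intro ε h0 h1
    exact ⟨hf1 ε h0 (by linarith), hf2 ε h0 h1⟩

end Q296.Typ
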